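import Pool.Agent.H54.WB.TargetsA

/-! Row GRD of wdb_modules: grids of cells give tilings of rectangles. -/

set_option autoImplicit false

namespace Pool.Agent.H76.WB

open Pool.Agent.H54.WB
open Pool.Agent.H8.PL (GridF)

/-- nonempty finite initial segments -/
private theorem seg (S : Set ℕ) (hf : S.Finite) (hne : S.Nonempty) (h : ∀ n, n + 1 ∈ S → n ∈ S) :
    ∃ W, 0 < W ∧ ∀ n, n ∈ S ↔ n < W := by
  have hM : sSup S ∈ S := Nat.sSup_mem hne hf.bddAbove
  have hd : ∀ k n, n + k ∈ S → n ∈ S := by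
    intro k
    induction k with
    | zero => intro n hn; exact hn
    | succ k ih => intro n hn; exact ih n (h _ hn)
  refine ⟨sSup S + 1, Nat.succ_pos _, fun n => ⟨fun hn => ?_, fun hn => ?_⟩⟩
  · exact Nat.lt_succ_of_le (le_csSup hf.bddAbove hn)
  · exact hd (sSup S - n) n (by rwa [show n + (sSup S - n) = sSup S by omega])

theorem pf_GRD : T_GRD := by
  intro V Q _ U Hh Vv cell Sm Sc Zr ti X g hS hZ
  classical
  have hA : ∀ s : Bool, ∃ W, 0 < W ∧ ∀ n, n ∈ X s '' {z | cell z} ↔ n < W := by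
    intro s
    refine seg _ (Set.toFinite _) ?_ ?_
    · obtain ⟨z, hz⟩ := g.ne
      exact ⟨X s z, z, hz, rfl⟩
    · rintro n ⟨z, hz, hn⟩
      rcases g.gd s z hz with h | ⟨w, hw, h⟩
      · rw [hZ s z hz] at h
        omega
      · rw [(hS s w z hw hz).2] at h
        exact ⟨w, hw, by omega⟩
  obtain ⟨W, hW, hW'⟩ := hA true
  obtain ⟨H, hH, hH'⟩ := hA false
  have hWx : ∀ z, cell z → X true z < W := fun z hz => (hW' _).1 ⟨z, hz, rfl⟩
  have hHx : ∀ z, cell z → X false z < H := fun z hz => (hH' _).1 ⟨z, hz, rfl⟩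
  have hWe : ∀ i < W, ∃ z, cell z ∧ X true z = i := fun i hi => (hW' i).2 hi
  have hHe : ∀ j < H, ∃ z, cell z ∧ X false z = j := fun j hj => (hH' j).2 hj
  have hex : ∀ i < W, ∀ j < H, ∃ z, cell z ∧ X true z = i ∧ X false z = j := by
    intro i hi j hj
    obtain ⟨z, hz, rfl⟩ := hWe i hi
    obtain ⟨z', hz', rfl⟩ := hHe j hj
    obtain ⟨w, hw, h1, h2⟩ := g.gp z z' hz hz'
    exact ⟨w, hw, ((hS true z w hz hw).1.1 h1).symm, ((hS false z' w hz' hw).1.1 h2).symm⟩
  have hun : ∀ z z', cell z → cell z' → X true z = X true z' → X false z = X false z' → z = z' :=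
    fun z z' hz hz' h1 h2 => g.gi z z' hz hz' ((hS true z z' hz hz').1.2 h1)
      ((hS false z z' hz hz').1.2 h2)
  obtain ⟨z0, hz0⟩ := g.ne
  let t : ℕ → ℕ → Q := fun i j =>
    if h : ∃ w, cell w ∧ X true w = i ∧ X false w = j then ti h.choose else ti z0
  have ht : ∀ z i j, cell z → X true z = i → X false z = j → t i j = ti z := by
    rintro z i j hz rfl rfl
    have h : ∃ w, cell w ∧ X true w = X true z ∧ X false w = X false z := ⟨z, hz, rfl, rfl⟩
    have h1 := h.choose_spec
    change (if h : ∃ w, cell w ∧ X true w = X true z ∧ X false w = X false z then ti h.choose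
      else ti z0) = ti z
    rw [dif_pos h]
    exact congrArg ti (hun _ _ h1.1 hz h1.2.1 h1.2.2)
  refine ⟨W, H, t, hW, hH, fun z hz => ⟨hWx z hz, hHx z hz⟩, hWe, hHe, ?_, ?_, ?_, ?_⟩
  · have h1 : Set.InjOn (fun z => (X true z, X false z)) {z | cell z} := by
      intro z hz z' hz' h
      simp only [Prod.mk.injEq] at h
      exact hun z z' hz hz' h.1 h.2
    rw [← Set.ncard_image_of_injOn h1]
    have h2 : (fun z => (X true z, X false z)) '' {z | cell z} =
        ↑(Finset.range W ×ˢ Finset.range H) := by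
      ext ⟨i, j⟩
      simp only [Set.mem_image, Set.mem_setOf_eq, Prod.mk.injEq, Finset.coe_product,
        Set.mem_prod, Finset.mem_coe, Finset.mem_range]
      constructor
      · rintro ⟨z, hz, rfl, rfl⟩
        exact ⟨hWx z hz, hHx z hz⟩
      · rintro ⟨hi, hj⟩
        exact hex i hi j hj
    rw [h2, Set.ncard_coe_finset, Finset.card_product, Finset.card_range, Finset.card_range]
  · intro x hx y hy
    obtain ⟨z, hz, rfl, rfl⟩ := hex x hx y hy
    rw [ht z _ _ hz rfl rfl]
    refine g.un z hz _ _ _ _ ?_ ?_ ?_ ?_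
    · rw [decide_eq_true_iff, hZ true z hz]
    · rw [decide_eq_true_iff]
      constructor
      · rintro h ⟨w, hw, h1⟩
        rw [(hS true z w hz hw).2] at h1
        have := hWx w hw
        omega
      · intro h
        by_contra h1
        obtain ⟨w, hw, h2⟩ := hWe (X true z + 1) (by omega)
        exact h ⟨w, hw, (hS true z w hz hw).2.2 h2⟩
    · rw [decide_eq_true_iff, hZ false z hz]
    · rw [decide_eq_true_iff]
      constructor
      · rintro h ⟨w, hw, h1⟩
        rw [(hS false z w hz hw).2] at h1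
        have := hHx w hw
        omega
      · intro h
        by_contra h1
        obtain ⟨w, hw, h2⟩ := hHe (X false z + 1) (by omega)
        exact h ⟨w, hw, (hS false z w hz hw).2.2 h2⟩
  · intro x y hx hy
    obtain ⟨z, hz, h1, h2⟩ := hex x (by omega) y hy
    obtain ⟨w, hw, h3, h4⟩ := hex (x + 1) hx y hy
    rw [ht z _ _ hz h1 h2, ht w _ _ hw h3 h4]
    exact g.hh z w hz hw ((hS true z w hz hw).2.2 (by omega)) ((hS false z w hz hw).1.2 (by omega))
  · intro x y hx hy
    obtain ⟨z, hz, h1, h2⟩ := hex x hx y (by omega)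
    obtain ⟨w, hw, h3, h4⟩ := hex x hx (y + 1) hy
    rw [ht z _ _ hz h1 h2, ht w _ _ hw h3 h4]
    exact g.vv z w hz hw ((hS true z w hz hw).1.2 (by omega)) ((hS false z w hz hw).2.2 (by omega))

end Pool.Agent.H76.WB
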